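import Pool.Agent.H26.GWBase.Cover
import Pool.Agent.H64.GW.Defs

/-!
# Algebraic bases have the Liouville property
-/

open Set Filter Topology Metric Laplacian InnerProductSpace
open scoped ContDiff Manifold

namespace Pool.Agent.H26.GWBase

open Pool.Agent.H64.GW

/-- The base `(S, Γ)` is algebraic: a dense connected open `Γ`-invariant subset `S₀` of the complex
manifold `S` is, via the local biholomorphism `p`, a covering space of the complement
of the hypersurface `P = 0` in `ℂⁿ`, and `Γ` acts on `S₀` over it with a bounded number of orbits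
on the fibres.

Example: `B` is a smooth connected quasi-projective variety of dimension `n`, `S → B` is its
universal covering and `Γ` is the group of deck transformations. There are a dense Zariski open
subset `B₀` of `B` and a finite etale morphism from `B₀` onto the complement of a hypersurface in
the affine space, and one takes for `S₀` the inverse image of `B₀`. -/
structure IsAlgebraicBase (n : ℕ) (S : Type) [TopologicalSpace S] [ChartedSpace (Fin n → ℂ) S]
    (Γ : Type) [Group Γ] [MulAction Γ S] (P : MvPolynomial (Fin n) ℂ)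
    (S₀ : TopologicalSpace.Opens S) (p : S → (Fin n → ℂ)) : Prop where
  dense : Dense (S₀ : Set S)
  connected : IsPreconnected (S₀ : Set S)
  mem : ∀ s ∈ S₀, MvPolynomial.eval (p s) P ≠ 0
  covering : IsCoveringMapOn (fun s : S₀ => p s) {x | MvPolynomial.eval x P ≠ 0}
  localDiffeo : IsLocalDiffeomorphOn 𝓘(ℂ, Fin n → ℂ) 𝓘(ℂ, Fin n → ℂ) 1 p S₀
  continuous_smul : ∀ γ : Γ, Continuous fun s : S => γ • s
  smul_mem : ∀ (γ : Γ), ∀ s ∈ S₀, γ • s ∈ S₀
  smul_eq : ∀ (γ : Γ), ∀ s ∈ S₀, p (γ • s) = p s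
  orbits : ∃ m : ℕ, ∀ x, ∃ R : Finset S, R.card ≤ m ∧
    ∀ s ∈ S₀, p s = x → ∃ γ : Γ, ∃ r ∈ R, s = γ • r

/-- a polynomial restricted to a complex line -/
lemma exists_line_polynomial {n : ℕ} (P : MvPolynomial (Fin n) ℂ) (x w : Fin n → ℂ) :
    ∃ Q : Polynomial ℂ, ∀ z : ℂ, Q.eval z = MvPolynomial.eval (x + z • w) P := by
  refine ⟨MvPolynomial.aeval (fun i => Polynomial.C (x i) + Polynomial.X * Polynomial.C (w i)) P,
    fun z => ?_⟩
  have h1 : (Polynomial.evalRingHom z).comp
      (MvPolynomial.aeval (R := ℂ)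
        (fun i => Polynomial.C (x i) + Polynomial.X * Polynomial.C (w i))).toRingHom =
      MvPolynomial.eval (x + z • w) := by
    apply MvPolynomial.ringHom_ext
    · intro r
      simp
    · intro i
      simp
      ring
  exact congrArg (fun f : MvPolynomial (Fin n) ℂ →+* ℂ => f P) h1

lemma line_finite {n : ℕ} (P : MvPolynomial (Fin n) ℂ) (x w : Fin n → ℂ)
    (hx : MvPolynomial.eval x P ≠ 0) :
    {z : ℂ | x + z • w ∉ {x | MvPolynomial.eval x P ≠ 0}}.Finite := by
  obtain ⟨Q, hQ⟩ := exists_line_polynomial P x w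
  have hQ0 : Q ≠ 0 := by
    rintro rfl
    apply hx
    have := hQ 0
    simp only [Polynomial.eval_zero, zero_smul, add_zero] at this
    exact this.symm
  apply (Q.roots.toFinset.finite_toSet).subset
  intro z hz
  simp only [mem_ofPred_eq, not_not] at hz
  simp only [Finset.mem_coe, Multiset.mem_toFinset, Polynomial.mem_roots hQ0,
    Polynomial.IsRoot.def, hQ]
  exact hz

variable {n : ℕ} {S : Type} [TopologicalSpace S] [ChartedSpace (Fin n → ℂ) S]
  {Γ : Type} [Group Γ] [MulAction Γ S] {P : MvPolynomial (Fin n) ℂ}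
  {S₀ : TopologicalSpace.Opens S} {p : S → (Fin n → ℂ)}

namespace IsAlgebraicBase

omit [TopologicalSpace S] [ChartedSpace (Fin n → ℂ) S] in
lemma lift_spec' {σ : ℂ → S} {x w : Fin n → ℂ} {O : Set ℂ} (hO : IsOpen O)
    (hp : ∀ z ∈ O, p (σ z) = x + z • w) {z : ℂ} (hz : z ∈ O) :
    ∀ᶠ y in 𝓝 z, p (σ y) = p (σ z) + (y - z) • w := by
  filter_upwards [hO.eventually_mem hz] with y hy
  rw [hp y hy, hp z hz, sub_smul]
  abel

/-- a continuous lift of a complex line is holomorphic -/
lemma lift_mdifferentiableAt {σ : ℂ → S} {z : ℂ} {w : Fin n → ℂ}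
    (hloc : IsLocalDiffeomorphAt 𝓘(ℂ, Fin n → ℂ) 𝓘(ℂ, Fin n → ℂ) 1 p (σ z))
    (hσ : ContinuousAt σ z)
    (hp : ∀ᶠ y in 𝓝 z, p (σ y) = p (σ z) + (y - z) • w) :
    MDifferentiableAt 𝓘(ℂ) 𝓘(ℂ, Fin n → ℂ) σ z := by
  have h1 : σ =ᶠ[𝓝 z] fun y => hloc.localInverse (p (σ z) + (y - z) • w) := by
    filter_upwards [hp, hσ.eventually hloc.localInverse_eventuallyEq_left] with y h1 h2
    rw [← h1]
    exact h2.symm
  have h2 : MDifferentiableAt 𝓘(ℂ) 𝓘(ℂ, Fin n → ℂ) (fun y => p (σ z) + (y - z) • w) z := by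
    rw [mdifferentiableAt_iff_differentiableAt]
    fun_prop
  have h3 : MDifferentiableAt 𝓘(ℂ, Fin n → ℂ) 𝓘(ℂ, Fin n → ℂ) hloc.localInverse
      (p (σ z) + (z - z) • w) := by
    rw [sub_self, zero_smul, add_zero]
    exact hloc.localInverse_mdifferentiableAt one_ne_zero
  have h4 := h3.comp z h2
  exact h4.congr_of_eventuallyEq h1

/-- along a lift of a disc in a line, `v` is smooth and has nonnegative Laplacian -/
lemma psh_lift (B : IsAlgebraicBase n S Γ P S₀ p) {v : S → ℝ} (hv : IsPSH (Fin n → ℂ) v) :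
    IsLinePSH (fun s : S₀ => p s) (fun s : S₀ => v s) := by
  intro σ₀ x w z₀ ε hε hσ₀ hp₀
  set σ : ℂ → S := fun z => (σ₀ z : S) with hσdef
  have hσ : ContinuousOn σ (ball z₀ ε) := continuous_subtype_val.comp_continuousOn hσ₀
  have hp : ∀ z ∈ ball z₀ ε, p (σ z) = x + z • w := hp₀
  have hcomp : (fun s : S₀ => v s) ∘ σ₀ = v ∘ σ := rfl
  rw [hcomp]
  set f : ℂ → S := fun t => σ (z₀ + ε • t) with hf
  have hmem : ∀ t ∈ ball (0 : ℂ) 1, z₀ + ε • t ∈ ball z₀ ε := by
    intro t ht
    rw [mem_ball_zero_iff] at ht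
    rw [mem_ball, dist_eq_norm, add_sub_cancel_left, norm_smul, Real.norm_eq_abs,
      abs_of_pos hε]
    nlinarith
  have hdisc : IsDisc (Fin n → ℂ) f := by
    intro t ht
    have h1 : MDifferentiableAt 𝓘(ℂ) 𝓘(ℂ, Fin n → ℂ) σ (z₀ + ε • t) := by
      apply lift_mdifferentiableAt (p := p) (w := w)
      · exact B.localDiffeo ⟨_, (σ₀ _).2⟩
      · exact hσ.continuousAt (isOpen_ball.mem_nhds (hmem t ht))
      · exact lift_spec' isOpen_ball hp (hmem t ht)
    have h2 : MDifferentiableAt 𝓘(ℂ) 𝓘(ℂ) (fun t : ℂ => z₀ + ε • t) t := by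
      rw [mdifferentiableAt_iff_differentiableAt]
      simp only [Complex.real_smul]
      fun_prop
    exact MDifferentiableAt.comp (g := σ) (f := fun t : ℂ => z₀ + ε • t) t h1 h2
  have h0 : (0 : ℂ) ∈ ball (0 : ℂ) 1 := mem_ball_self one_pos
  have hsm := hv.smooth f hdisc
  have hlap := hv.laplacian_nonneg f hdisc 0 h0
  have h3 : v ∘ σ = fun z => (v ∘ f) (ε⁻¹ • (z - z₀)) := by
    funext z
    simp only [Function.comp_apply, hf]
    rw [smul_inv_smul₀ hε.ne', add_sub_cancel]
  have h4 : ContDiffAt ℝ 2 (v ∘ σ) z₀ := by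
    rw [h3]
    apply ContDiffAt.comp (g := v ∘ f) (f := fun z => ε⁻¹ • (z - z₀)) z₀
    · rw [sub_self, smul_zero]
      exact (hsm.contDiffAt (isOpen_ball.mem_nhds h0)).of_le (WithTop.coe_le_coe.2 le_top)
    · exact ((contDiff_id.sub contDiff_const).const_smul _).contDiffAt
  refine ⟨h4, ?_⟩
  have h5 := laplacian_comp_affine h4 ε
  have h6 : (fun t : ℂ => (v ∘ σ) (z₀ + ε • t)) = v ∘ f := rfl
  rw [h6] at h5
  rw [h5] at hlap
  by_contra hc
  push Not at hc
  have : ε ^ 2 * Δ (v ∘ σ) z₀ < 0 := mul_neg_of_pos_of_neg (by positivity) hc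
  linarith

/-- Every algebraic base has the Liouville property. -/
theorem isLiouville (B : IsAlgebraicBase n S Γ P S₀ p) : IsLiouville (Fin n → ℂ) S Γ := by
  intro v hv hneg hmul
  let act : MulAction Γ S₀ :=
    { smul := fun γ s => ⟨γ • s.1, B.smul_mem γ s.1 s.2⟩
      one_smul := fun s => Subtype.ext (one_smul Γ s.1)
      mul_smul := fun γ δ s => Subtype.ext (mul_smul γ δ s.1) }
  have hact : ∀ (γ : Γ) (s : S₀), ((γ • s : S₀) : S) = γ • (s : S) := fun γ s => rfl
  have hpre : PreconnectedSpace S₀ := isPreconnected_iff_preconnectedSpace.1 B.connected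
  have hL : IsLineBase (Fin n → ℂ) S₀ Γ {x | MvPolynomial.eval x P ≠ 0} (fun s : S₀ => p s) :=
    { line := fun x hx w => line_finite P x w hx
      mem := fun s => B.mem s s.2
      covering := B.covering
      smul_eq := fun γ s => B.smul_eq γ s s.2
      continuous_smul := fun γ =>
        Continuous.subtype_mk ((B.continuous_smul γ).comp continuous_subtype_val) _
      orbits := by
        classical
        obtain ⟨m, hm⟩ := B.orbits
        refine ⟨m, fun x _ => ?_⟩
        obtain ⟨R, hR, hR'⟩ := hm x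
        refine ⟨R.subtype (· ∈ S₀), ?_, ?_⟩
        · rw [Finset.card_subtype]
          exact (Finset.card_filter_le _ _).trans hR
        · intro s hs
          obtain ⟨γ, r, hr, h⟩ := hR' s s.2 hs
          have hr0 : r ∈ S₀ := by
            have := B.smul_mem γ⁻¹ s s.2
            rwa [h, inv_smul_smul] at this
          exact ⟨γ, ⟨r, hr0⟩, by simpa using hr, Subtype.ext h⟩ }
  have hconst := hL.liouville (B.psh_lift hv) (fun s => hneg s) (fun γ => by
    obtain ⟨m, hm⟩ := hmul γ
    exact ⟨m, fun s => hm s⟩)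
  -- extend by density
  intro s t
  rcases isEmpty_or_nonempty S₀ with he | ⟨⟨s₀⟩⟩
  · exfalso
    have hne := B.dense.nonempty_iff.2 ⟨s⟩
    exact he.false ⟨_, hne.some_mem⟩
  · have h1 : ∀ a, v a = v s₀ := by
      have h2 : IsClosed {a | v a = v s₀} := isClosed_eq hv.continuous continuous_const
      have h3 : (S₀ : Set S) ⊆ {a | v a = v s₀} := fun a ha => hconst ⟨a, ha⟩ s₀
      have h4 : closure (S₀ : Set S) ⊆ {a | v a = v s₀} := closure_minimal h3 h2
      rw [B.dense.closure_eq] at h4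
      exact fun a => h4 (mem_univ a)
    rw [h1 s, h1 t]

end IsAlgebraicBase

end Pool.Agent.H26.GWBase
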