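import Pool.Agent.H26.GWBase.Loc

/-!
# Coverings of complements of hypersurfaces have the Liouville property
-/

open MeasureTheory Set Filter Topology Metric Laplacian InnerProductSpace
open scoped ContDiff

namespace Pool.Agent.H26.GWBase

section Sections

variable {𝕄 : Type*} [NormedAddCommGroup 𝕄] [NormedSpace ℂ 𝕄]
  {S : Type*} [TopologicalSpace S]

omit [NormedSpace ℂ 𝕄] in
/-- local sections of a covering along a complex line -/
lemma exists_sections {p : S → 𝕄} {U : Set 𝕄} (hp : IsCoveringMapOn p U) {ℓ : ℂ → 𝕄}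
    (hℓ : Continuous ℓ) {z₀ : ℂ} (hz₀ : ℓ z₀ ∈ U) :
    ∃ (ε : ℝ) (σ : (p ⁻¹' {ℓ z₀}) → ℂ → S), 0 < ε ∧
      (∀ i, ∀ z ∈ ball z₀ ε, p (σ i z) = ℓ z) ∧
      (∀ i, ContinuousOn (σ i) (ball z₀ ε)) ∧
      (∀ z ∈ ball z₀ ε, ∀ s, p s = ℓ z → ∃ i, σ i z = s) ∧
      (∀ τ : ℂ → S, ContinuousOn τ (ball z₀ ε) → (∀ z ∈ ball z₀ ε, p (τ z) = ℓ z) →
        ∀ i, ∀ y ∈ ball z₀ ε, τ y = σ i y → ∀ z ∈ ball z₀ ε, τ z = σ i z) := by
  obtain ⟨hdisc, V, hxV, hV, hpV, H, hH⟩ := hp _ hz₀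
  obtain ⟨ε, hε, hball⟩ := Metric.isOpen_iff.1 (hV.preimage hℓ) z₀ hxV
  classical
  have hHs : ∀ y : V × (p ⁻¹' {ℓ z₀}), p (H.symm y).1 = y.1.1 := by
    intro y
    have := hH (H.symm y)
    rw [H.apply_symm_apply] at this
    exact this.symm
  set σ : (p ⁻¹' {ℓ z₀}) → ℂ → S := fun i z =>
    if h : ℓ z ∈ V then (H.symm (⟨ℓ z, h⟩, i)).1 else i.1 with hσ
  have hσ1 : ∀ i z (hz : z ∈ ball z₀ ε), σ i z = (H.symm (⟨ℓ z, hball hz⟩, i)).1 := by
    intro i z hz
    have : ℓ z ∈ V := hball hz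
    simp only [hσ, this, dite_true]
  refine ⟨ε, σ, hε, ?_, ?_, ?_, ?_⟩
  · intro i z hz
    rw [hσ1 i z hz, hHs]
  · intro i
    rw [continuousOn_iff_continuous_domRestrict]
    have h1 : Continuous (fun z : ball z₀ ε => (H.symm (⟨ℓ z, hball z.2⟩, i)).1) :=
      continuous_subtype_val.comp (H.symm.continuous.comp (Continuous.prodMk
        (Continuous.subtype_mk (hℓ.comp continuous_subtype_val) _) continuous_const))
    refine h1.congr fun z => ?_
    exact (hσ1 i z z.2).symm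
  · intro z hz s hs
    have hsV : s ∈ p ⁻¹' V := by
      show p s ∈ V
      rw [hs]
      exact hball hz
    refine ⟨(H ⟨s, hsV⟩).2, ?_⟩
    rw [hσ1 _ z hz]
    have h2 : ((⟨ℓ z, hball hz⟩, (H ⟨s, hsV⟩).2) : V × (p ⁻¹' {ℓ z₀})) = H ⟨s, hsV⟩ := by
      ext1
      · apply Subtype.ext
        show ℓ z = (H ⟨s, hsV⟩).1.1
        rw [hH, ← hs]
      · rfl
    rw [h2, H.symm_apply_apply]
  · intro τ hτ hpτ i y hy hyi z hz
    have hmem : ∀ z : ball z₀ ε, τ z ∈ p ⁻¹' V := by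
      intro z
      show p (τ z) ∈ V
      rw [hpτ z z.2]
      exact hball z.2
    set lab : ball z₀ ε → (p ⁻¹' {ℓ z₀}) := fun z => (H ⟨τ z, hmem z⟩).2 with hlab
    have hlabc : Continuous lab := by
      apply continuous_snd.comp
      apply H.continuous.comp
      exact Continuous.subtype_mk (continuousOn_iff_continuous_domRestrict.1 hτ) _
    have hpre : PreconnectedSpace (ball z₀ ε) :=
      isPreconnected_iff_preconnectedSpace.1 (convex_ball z₀ ε).isPreconnected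
    have hconst : ∀ a b : ball z₀ ε, lab a = lab b := by
      intro a b
      exact (IsLocallyConstant.iff_continuous lab).2 hlabc |>.apply_eq_of_preconnectedSpace a b
    have hlabi : lab ⟨y, hy⟩ = i := by
      have h3 : (⟨τ y, hmem ⟨y, hy⟩⟩ : p ⁻¹' V) = H.symm (⟨ℓ y, hball hy⟩, i) := by
        apply Subtype.ext
        show τ y = _
        rw [hyi, hσ1 i y hy]
      show (H ⟨τ y, hmem ⟨y, hy⟩⟩).2 = i
      rw [h3, H.apply_symm_apply]
    have h4 : lab ⟨z, hz⟩ = i := by rw [hconst ⟨z, hz⟩ ⟨y, hy⟩, hlabi]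
    rw [hσ1 i z hz]
    have h5 : ((⟨ℓ z, hball hz⟩, i) : V × (p ⁻¹' {ℓ z₀})) = H ⟨τ z, hmem ⟨z, hz⟩⟩ := by
      ext1
      · apply Subtype.ext
        show ℓ z = (H ⟨τ z, hmem ⟨z, hz⟩⟩).1.1
        rw [hH]
        exact (hpτ z hz).symm
      · exact h4.symm
    rw [h5, H.symm_apply_apply]

end Sections

variable {𝕄 : Type*} [NormedAddCommGroup 𝕄] [NormedSpace ℂ 𝕄]
  {S : Type*} [TopologicalSpace S]
  {Γ : Type*} [Group Γ] [MulAction Γ S]

/-- `p : S → U` is a covering of a set `U` which meets every complex line through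
one of its points in the complement of a finite set, and the group `Γ` acts on `S` over `U` with a
bounded number of orbits on the fibres. -/
structure IsLineBase (𝕄 : Type*) [NormedAddCommGroup 𝕄] [NormedSpace ℂ 𝕄]
    (S : Type*) [TopologicalSpace S]
    (Γ : Type*) [Group Γ] [MulAction Γ S] (U : Set 𝕄) (p : S → 𝕄) : Prop where
  line : ∀ x ∈ U, ∀ w : 𝕄, {z : ℂ | x + z • w ∉ U}.Finite
  mem : ∀ s, p s ∈ U
  covering : IsCoveringMapOn p U
  smul_eq : ∀ (γ : Γ) (s : S), p (γ • s) = p s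
  continuous_smul : ∀ γ : Γ, Continuous fun s : S => γ • s
  orbits : ∃ m : ℕ, ∀ x ∈ U, ∃ R : Finset S, R.card ≤ m ∧
    ∀ s, p s = x → ∃ γ : Γ, ∃ r ∈ R, s = γ • r

/-- `v` is smooth and subharmonic along every lift of a disc in a complex line -/
def IsLinePSH (p : S → 𝕄) (v : S → ℝ) : Prop :=
  ∀ (σ : ℂ → S) (x w : 𝕄) (z₀ : ℂ) (ε : ℝ), 0 < ε → ContinuousOn σ (ball z₀ ε) →
    (∀ z ∈ ball z₀ ε, p (σ z) = x + z • w) →
    ContDiffAt ℝ 2 (v ∘ σ) z₀ ∧ 0 ≤ Δ (v ∘ σ) z₀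

namespace IsLineBase

variable {U : Set 𝕄} {p : S → 𝕄} (B : IsLineBase 𝕄 S Γ U p)

include B in
lemma isLocalHomeomorph : IsLocalHomeomorph p := by
  rw [isLocalHomeomorph_iff_isLocalHomeomorphOn_univ]
  have h : p ⁻¹' U = univ := eq_univ_of_forall B.mem
  rw [← h]
  exact B.covering.isLocalHomeomorphOn

/-- the local inverse of `p` at `s` -/
noncomputable def L (s : S) : OpenPartialHomeomorph 𝕄 S :=
  B.isLocalHomeomorph.localInverseAt s

/-- the local inverse of `p` at `s` -/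
noncomputable def q (s : S) : 𝕄 → S := B.L s

lemma q_self (s : S) : B.q s (p s) = s := B.isLocalHomeomorph.localInverseAt_apply_self

lemma p_q {s : S} {y : 𝕄} (hy : y ∈ (B.L s).source) : p (B.q s y) = y :=
  B.isLocalHomeomorph.apply_localInverseAt_of_mem hy

lemma mem_source (s : S) : p s ∈ (B.L s).source :=
  B.isLocalHomeomorph.apply_self_mem_localInverseAt_source

lemma eventually_q_p (s : S) : ∀ᶠ t in 𝓝 s, B.q s (p t) = t := by
  filter_upwards [(B.L s).open_target.eventually_mem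
    B.isLocalHomeomorph.self_mem_localInverseAt_target] with t ht
  have h1 := (B.L s).right_inv ht
  have h2 : (B.L s).symm = p := B.isLocalHomeomorph.localInverseAt_symm s
  rw [h2] at h1
  exact h1

/-- a continuous lift of a complex line agrees with the local inverse -/
lemma lift_eventuallyEq {σ : ℂ → S} {z : ℂ} {w : 𝕄} (hσ : ContinuousAt σ z)
    (hp : ∀ᶠ y in 𝓝 z, p (σ y) = p (σ z) + (y - z) • w) :
    σ =ᶠ[𝓝 z] fun y => B.q (σ z) (p (σ z) + (y - z) • w) := by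
  filter_upwards [hp, hσ.eventually (B.eventually_q_p (σ z))] with y h1 h2
  rw [← h1, h2]

/-- the logarithmic gradient of `v` at `s` along the direction `w` -/
noncomputable def Φ (v : S → ℝ) (w : 𝕄) (s : S) : ℂ :=
  lgrad (fun t : ℂ => v (B.q s (p s + t • w))) 0

lemma lgrad_comp_sub (u : ℂ → ℝ) (z : ℂ) : lgrad (fun y => u (y - z)) z = lgrad u 0 := by
  unfold lgrad
  rw [grad_comp_sub]
  simp only [sub_self]

lemma lgrad_lift (v : S → ℝ) {σ : ℂ → S} {z : ℂ} {w : 𝕄} (hσ : ContinuousAt σ z)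
    (hp : ∀ᶠ y in 𝓝 z, p (σ y) = p (σ z) + (y - z) • w) :
    lgrad (v ∘ σ) z = B.Φ v w (σ z) := by
  have h1 : (v ∘ σ) =ᶠ[𝓝 z] fun y => v (B.q (σ z) (p (σ z) + (y - z) • w)) := by
    filter_upwards [B.lift_eventuallyEq hσ hp] with y hy
    rw [Function.comp_apply, hy]
  rw [lgrad_congr h1]
  exact lgrad_comp_sub (fun t => v (B.q (σ z) (p (σ z) + t • w))) z

omit [TopologicalSpace S] in
lemma lift_spec {σ : ℂ → S} {x w : 𝕄} {O : Set ℂ} (hO : IsOpen O)
    (hp : ∀ z ∈ O, p (σ z) = x + z • w) {z : ℂ} (hz : z ∈ O) :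
    ∀ᶠ y in 𝓝 z, p (σ y) = p (σ z) + (y - z) • w := by
  filter_upwards [hO.eventually_mem hz] with y hy
  rw [hp y hy, hp z hz, sub_smul]
  abel

/-- the standard lift of a line through `s` -/
lemma exists_lift (s : S) (w : 𝕄) : ∃ ε > 0,
    ContinuousOn (fun t : ℂ => B.q s (p s + t • w)) (ball 0 ε) ∧
    ∀ t ∈ ball (0 : ℂ) ε, p (B.q s (p s + t • w)) = p s + t • w := by
  have h1 : IsOpen {t : ℂ | p s + t • w ∈ (B.L s).source} :=
    (B.L s).open_source.preimage (by fun_prop)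
  have h0 : (0 : ℂ) ∈ {t : ℂ | p s + t • w ∈ (B.L s).source} := by
    show p s + (0 : ℂ) • w ∈ (B.L s).source
    rw [zero_smul, add_zero]
    exact B.mem_source s
  obtain ⟨ε, hε, hball⟩ := Metric.isOpen_iff.1 h1 0 h0
  refine ⟨ε, hε, ?_, ?_⟩
  · exact (B.L s).continuousOn.comp (by fun_prop) hball
  · intro t ht
    exact B.p_q (hball ht)

/-- invariance of the logarithmic gradient -/
lemma Φ_smul {v : S → ℝ} (hv : IsLinePSH p v) (hneg : ∀ s, v s < 0) (γ : Γ) {m : ℝ}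
    (hm : ∀ s, v (γ • s) = m * v s) (w : 𝕄) (s : S) : B.Φ v w (γ • s) = B.Φ v w s := by
  obtain ⟨ε, hε, h1, h2⟩ := B.exists_lift s w
  set σ : ℂ → S := fun t => B.q s (p s + t • w) with hσ
  have h0 : (0 : ℂ) ∈ ball (0 : ℂ) ε := mem_ball_self hε
  have hσ0 : σ 0 = s := by
    simp only [hσ, zero_smul, add_zero]
    exact B.q_self s
  have hc : ContinuousAt σ 0 := h1.continuousAt (isOpen_ball.mem_nhds h0)
  have hm0 : m ≠ 0 := by
    rintro rfl
    have := hneg (γ • s)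
    rw [hm s] at this
    simp at this
  have e1 : lgrad (v ∘ fun t => γ • σ t) 0 = B.Φ v w (γ • s) := by
    have := B.lgrad_lift (w := w) v (σ := fun t => γ • σ t) (z := 0)
      ((B.continuous_smul γ).continuousAt.comp hc) ?_
    · simp only [hσ0] at this
      exact this
    · filter_upwards [isOpen_ball.eventually_mem h0] with y hy
      rw [B.smul_eq, B.smul_eq, h2 y hy, hσ0, sub_zero]
  have e2 : lgrad (v ∘ σ) 0 = B.Φ v w s := by
    have := B.lgrad_lift (w := w) v (σ := σ) (z := 0) hc ?_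
    · rw [hσ0] at this
      exact this
    · filter_upwards [isOpen_ball.eventually_mem h0] with y hy
      rw [h2 y hy, hσ0, sub_zero]
  have e3 : (v ∘ fun t => γ • σ t) = fun t => m * (v ∘ σ) t := by
    funext t
    simp only [Function.comp_apply, hm]
  have e4 : DifferentiableAt ℝ (v ∘ σ) 0 :=
    (hv σ _ _ _ _ hε h1 h2).1.differentiableAt (by norm_num)
  rw [← e1, ← e2, e3, lgrad_const_mul e4 hm0]

include B in
lemma rel_p (a b : S) (h : (MulAction.orbitRel Γ S) a b) : p a = p b := by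
  obtain ⟨γ, rfl⟩ := h
  exact B.smul_eq γ b

/-- the projection from the set of orbits -/
def pbar (_ : IsLineBase 𝕄 S Γ U p) : MulAction.orbitRel.Quotient Γ S → 𝕄 :=
  Quotient.lift p (rel_p ‹_›)

lemma pbar_mk (s : S) : B.pbar (Quotient.mk _ s) = p s := rfl

/-- representatives of the orbits along a line -/
lemma local_repr {m : ℕ} (hm : ∀ x ∈ U, ∃ R : Finset S, R.card ≤ m ∧
    ∀ s, p s = x → ∃ γ : Γ, ∃ r ∈ R, s = γ • r) {x w : 𝕄} {z₀ : ℂ} (hmem : x + z₀ • w ∈ U) :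
    ∃ (ε : ℝ) (J : Finset (MulAction.orbitRel.Quotient Γ S))
      (τ : MulAction.orbitRel.Quotient Γ S → ℂ → S), 0 < ε ∧ J.card ≤ m ∧
      (∀ o ∈ J, ContinuousOn (τ o) (ball z₀ ε)) ∧
      (∀ o ∈ J, ∀ z ∈ ball z₀ ε, p (τ o z) = x + z • w) ∧
      ∀ z ∈ ball z₀ ε, BijOn
        (fun o => (Quotient.mk _ (τ o z) : MulAction.orbitRel.Quotient Γ S)) J
        {o | B.pbar o = x + z • w} := by
  classical
  obtain ⟨ε, σ, hε, h1, h2, h3, h4⟩ := exists_sections B.covering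
    (ℓ := fun z => x + z • w) (by fun_prop) hmem
  obtain ⟨R, hR, hR'⟩ := hm _ hmem
  set J : Finset (MulAction.orbitRel.Quotient Γ S) :=
    (R.image (fun r => (Quotient.mk _ r : MulAction.orbitRel.Quotient Γ S))).filter
      (fun o => B.pbar o = x + z₀ • w) with hJ
  have z0 : z₀ ∈ ball z₀ ε := mem_ball_self hε
  have hJmem : ∀ s, p s = x + z₀ • w →
      (Quotient.mk _ s : MulAction.orbitRel.Quotient Γ S) ∈ J := by
    intro s hs
    obtain ⟨γ, r, hr, rfl⟩ := hR' s hs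
    rw [hJ, Finset.mem_filter, Finset.mem_image]
    refine ⟨⟨r, hr, ?_⟩, hs⟩
    exact (Quotient.sound (show (MulAction.orbitRel Γ S) (γ • r) r from ⟨γ, rfl⟩)).symm
  have hex : ∀ o ∈ J, ∃ i, (Quotient.mk _ (σ i z₀) : MulAction.orbitRel.Quotient Γ S) = o := by
    intro o ho
    obtain ⟨s, rfl⟩ := Quotient.exists_rep o
    have hs : p s = x + z₀ • w := (Finset.mem_filter.1 ho).2
    obtain ⟨i, hi⟩ := h3 z₀ z0 s hs
    exact ⟨i, by rw [hi]⟩
  set τ : MulAction.orbitRel.Quotient Γ S → ℂ → S := fun o =>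
    if h : ∃ i, (Quotient.mk _ (σ i z₀) : MulAction.orbitRel.Quotient Γ S) = o
    then σ h.choose else fun _ => o.out with hτ
  have hτ' : ∀ o ∈ J, ∃ i, τ o = σ i ∧
      (Quotient.mk _ (σ i z₀) : MulAction.orbitRel.Quotient Γ S) = o := by
    intro o ho
    have h := hex o ho
    refine ⟨h.choose, ?_, h.choose_spec⟩
    simp only [hτ, h, dite_true]
  -- two lifts with equal classes at one point have equal classes everywhere
  have key : ∀ i j, ∀ y ∈ ball z₀ ε, ∀ z ∈ ball z₀ ε,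
      (Quotient.mk _ (σ i y) : MulAction.orbitRel.Quotient Γ S) = Quotient.mk _ (σ j y) →
      (Quotient.mk _ (σ i z) : MulAction.orbitRel.Quotient Γ S) = Quotient.mk _ (σ j z) := by
    intro i j y hy z hz h
    obtain ⟨γ, hγ⟩ := Quotient.exact h
    have h5 := h4 (fun z => γ • σ j z)
      ((B.continuous_smul γ).comp_continuousOn (h2 j))
      (fun z hz => by rw [B.smul_eq]; exact h1 j z hz) i y hy hγ z hz
    exact Quotient.sound ⟨γ, h5⟩
  refine ⟨ε, J, τ, hε, ?_, ?_, ?_, ?_⟩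
  · exact ((Finset.card_filter_le _ _).trans Finset.card_image_le).trans hR
  · intro o ho
    obtain ⟨i, hi, _⟩ := hτ' o ho
    rw [hi]
    exact h2 i
  · intro o ho z hz
    obtain ⟨i, hi, _⟩ := hτ' o ho
    rw [hi]
    exact h1 i z hz
  · intro z hz
    refine ⟨?_, ?_, ?_⟩
    · intro o ho
      obtain ⟨i, hi, _⟩ := hτ' o ho
      show p (τ o z) = x + z • w
      rw [hi]
      exact h1 i z hz
    · intro o ho o' ho' h
      obtain ⟨i, hi, hi'⟩ := hτ' o ho
      obtain ⟨j, hj, hj'⟩ := hτ' o' ho'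
      simp only [hi, hj] at h
      rw [← hi', ← hj']
      exact key i j z hz z₀ z0 h
    · intro o₁ ho₁
      obtain ⟨s, rfl⟩ := Quotient.exists_rep o₁
      have hs : p s = x + z • w := ho₁
      obtain ⟨j, hj⟩ := h3 z hz s hs
      have hoJ := hJmem (σ j z₀) (h1 j z₀ z0)
      obtain ⟨i, hi, hi'⟩ := hτ' _ hoJ
      refine ⟨_, hoJ, ?_⟩
      simp only [hi]
      rw [key i j z₀ z0 z hz hi', hj]

/-- the logarithmic gradient vanishes -/
theorem Φ_eq_zero {v : S → ℝ} (hv : IsLinePSH p v) (hneg : ∀ s, v s < 0)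
    (hmul : ∀ γ : Γ, ∃ m : ℝ, ∀ s, v (γ • s) = m * v s) (w : 𝕄) (s₀ : S) : B.Φ v w s₀ = 0 := by
  classical
  obtain ⟨m, hm⟩ := B.orbits
  have hinv : ∀ a b : S, (MulAction.orbitRel Γ S) a b → B.Φ v w a = B.Φ v w b := by
    rintro a b ⟨γ, rfl⟩
    obtain ⟨c, hc⟩ := hmul γ
    exact B.Φ_smul hv hneg γ hc w b
  set Φb : MulAction.orbitRel.Quotient Γ S → ℂ := Quotient.lift (B.Φ v w) hinv with hΦb
  set x := p s₀ with hx
  set X : ℂ → ℂ := fun z => ∑ᶠ o ∈ {o | B.pbar o = x + z • w}, Φb o with hX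
  have hfin := B.line x (B.mem s₀) w
  set D : Finset ℂ := hfin.toFinset with hD
  have hDmem : ∀ z, z ∉ D ↔ x + z • w ∈ U := by
    intro z
    rw [hD, Set.Finite.mem_toFinset, mem_ofPred_eq, not_not]
  -- local description of `X`
  have hloc : ∀ z₀, x + z₀ • w ∈ U → ∃ (J : Finset (MulAction.orbitRel.Quotient Γ S))
      (τ : MulAction.orbitRel.Quotient Γ S → ℂ → S), J.card ≤ m ∧
      (X =ᶠ[𝓝 z₀] fun z => ∑ o ∈ J, lgrad (v ∘ τ o) z) ∧
      (∀ o ∈ J, ContDiffAt ℝ 2 (v ∘ τ o) z₀ ∧ 0 ≤ Δ (v ∘ τ o) z₀) ∧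
      ∀ s, p s = x + z₀ • w → ∃ o ∈ J, B.Φ v w s = lgrad (v ∘ τ o) z₀ := by
    intro z₀ hz₀
    obtain ⟨ε, J, τ, hε, h1, h2, h3, h4⟩ := B.local_repr hm hz₀
    have z0 : z₀ ∈ ball z₀ ε := mem_ball_self hε
    have hlg : ∀ z ∈ ball z₀ ε, ∀ o ∈ J, lgrad (v ∘ τ o) z = B.Φ v w (τ o z) := by
      intro z hz o ho
      exact B.lgrad_lift v ((h2 o ho).continuousAt (isOpen_ball.mem_nhds hz))
        (lift_spec isOpen_ball (h3 o ho) hz)
    refine ⟨J, τ, h1, ?_, fun o ho => hv _ _ _ _ _ hε (h2 o ho) (h3 o ho), ?_⟩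
    · filter_upwards [isOpen_ball.eventually_mem z0] with z hz
      have h5 := finsum_mem_eq_of_bijOn (f := fun o => lgrad (v ∘ τ o) z) (g := Φb) _ (h4 z hz)
        (fun o ho => hlg z hz o ho)
      rw [finsum_mem_coe_finset] at h5
      exact h5.symm
    · intro s hs
      obtain ⟨o, ho, ho'⟩ := (h4 z₀ z0).surjOn
        (show (Quotient.mk _ s : MulAction.orbitRel.Quotient Γ S) ∈ _ from hs)
      refine ⟨o, ho, ?_⟩
      rw [hlg z₀ z0 o ho]
      exact (hinv _ _ (Quotient.exact ho')).symm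
  -- divergence of the local description
  have hdv : ∀ (J : Finset (MulAction.orbitRel.Quotient Γ S))
      (τ : MulAction.orbitRel.Quotient Γ S → ℂ → S) (z₀ : ℂ),
      (X =ᶠ[𝓝 z₀] fun z => ∑ o ∈ J, lgrad (v ∘ τ o) z) →
      (∀ o ∈ J, ContDiffAt ℝ 2 (v ∘ τ o) z₀ ∧ 0 ≤ Δ (v ∘ τ o) z₀) →
      ContDiffAt ℝ 1 X z₀ ∧ ∑ o ∈ J, ‖lgrad (v ∘ τ o) z₀‖ ^ 2 ≤ dv X z₀ := by
    intro J τ z₀ hXe hJ
    have h6 : ∀ o ∈ J, ContDiffAt ℝ 1 (lgrad (v ∘ τ o)) z₀ := fun o ho =>
      contDiffAt_lgrad (hJ o ho).1 (hneg _)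
    have h7 : ContDiffAt ℝ 1 X z₀ :=
      (ContDiffAt.sum h6).congr_of_eventuallyEq hXe
    refine ⟨h7, ?_⟩
    have h8 : dv X z₀ = ∑ o ∈ J, dv (lgrad (v ∘ τ o)) z₀ := by
      unfold dv
      rw [hXe.fderiv_eq, fderiv_fun_sum fun o ho => (h6 o ho).differentiableAt (by norm_num)]
      simp only [ContinuousLinearMap.sum_apply, Complex.re_sum, Complex.im_sum]
      rw [← Finset.sum_add_distrib]
    rw [h8]
    apply Finset.sum_le_sum
    intro o ho
    rw [dv_lgrad (hJ o ho).1 (hneg _)]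
    have : 0 ≤ Δ (v ∘ τ o) z₀ / (-((v ∘ τ o) z₀)) :=
      div_nonneg (hJ o ho).2 (by have := hneg (τ o z₀); simp only [Function.comp_apply]; linarith)
    linarith
  have hX0 : ∀ z ∉ D, X z = 0 := by
    apply plane_liouville D X (m := (m : ℝ) + 1) (by positivity)
    · intro z hz
      obtain ⟨J, τ, h1, h2, h3, h4⟩ := hloc z ((hDmem z).1 hz)
      exact (hdv J τ z h2 h3).1
    · intro z hz
      obtain ⟨J, τ, h1, h2, h3, h4⟩ := hloc z ((hDmem z).1 hz)
      have h5 := (hdv J τ z h2 h3).2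
      rw [h2.eq_of_nhds]
      have h6 : ‖∑ o ∈ J, lgrad (v ∘ τ o) z‖ ^ 2 ≤ (∑ o ∈ J, ‖lgrad (v ∘ τ o) z‖) ^ 2 := by
        gcongr
        exact norm_sum_le _ _
      have h7 := sq_sum_le_card_mul_sum_sq (s := J) (f := fun o => ‖lgrad (v ∘ τ o) z‖)
      have h8 : (0 : ℝ) ≤ ∑ o ∈ J, ‖lgrad (v ∘ τ o) z‖ ^ 2 :=
        Finset.sum_nonneg fun o _ => by positivity
      have h9 : (J.card : ℝ) ≤ (m : ℝ) + 1 := by
        have : (J.card : ℝ) ≤ m := by exact_mod_cast h1
        linarith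
      calc ‖∑ o ∈ J, lgrad (v ∘ τ o) z‖ ^ 2
          ≤ (J.card : ℝ) * ∑ o ∈ J, ‖lgrad (v ∘ τ o) z‖ ^ 2 := h6.trans h7
        _ ≤ ((m : ℝ) + 1) * ∑ o ∈ J, ‖lgrad (v ∘ τ o) z‖ ^ 2 := by gcongr
        _ ≤ ((m : ℝ) + 1) * dv X z := by gcongr
  have h0U : x + (0 : ℂ) • w ∈ U := by
    rw [zero_smul, add_zero]
    exact B.mem s₀
  obtain ⟨J, τ, h1, h2, h3, h4⟩ := hloc 0 h0U
  obtain ⟨o, ho, ho'⟩ := h4 s₀ (by rw [zero_smul, add_zero])
  have h5 := (hdv J τ 0 h2 h3).2
  have h6 : dv X 0 = 0 := by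
    have h7 : X =ᶠ[𝓝 0] fun _ => 0 := by
      filter_upwards [D.finite_toSet.isClosed.isOpen_compl.eventually_mem
        ((hDmem 0).2 h0U)] with z hz
      exact hX0 z hz
    unfold dv
    rw [h7.fderiv_eq]
    simp
  rw [h6] at h5
  have h8 := Finset.single_le_sum (f := fun o => ‖lgrad (v ∘ τ o) 0‖ ^ 2)
    (fun o _ => by positivity) ho
  have h9 : ‖lgrad (v ∘ τ o) 0‖ ^ 2 ≤ 0 := h8.trans h5
  rw [ho']
  have h10 : ‖lgrad (v ∘ τ o) 0‖ = 0 := by nlinarith [norm_nonneg (lgrad (v ∘ τ o) 0)]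
  exact norm_eq_zero.1 h10

lemma lgrad_eq_zero {u : ℂ → ℝ} {z : ℂ} (h : lgrad u z = 0) (h0 : u z < 0) :
    fderiv ℝ u z = 0 := by
  unfold lgrad at h
  have h1 : grad u z = 0 := by
    rcases smul_eq_zero.1 h with h2 | h2
    · exact absurd h2 (inv_ne_zero (by linarith))
    · exact h2
  have h2 : fderiv ℝ u z 1 = 0 := by rw [← grad_re, h1]; rfl
  have h3 : fderiv ℝ u z Complex.I = 0 := by rw [← grad_im, h1]; rfl
  refine ContinuousLinearMap.ext fun y => ?_
  have h4 : y = y.re • (1 : ℂ) + y.im • Complex.I := by simp [Complex.re_add_im]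
  rw [h4, map_add, map_smul, map_smul, h2, h3]
  simp

include B in
/-- coverings of domains which meet every line in the complement of a finite set, with a group
acting with boundedly many orbits on the fibres, have the Liouville property -/
theorem liouville [PreconnectedSpace S] {v : S → ℝ} (hv : IsLinePSH p v) (hneg : ∀ s, v s < 0)
    (hmul : ∀ γ : Γ, ∃ m : ℝ, ∀ s, v (γ • s) = m * v s) : ∀ s t, v s = v t := by
  have hlc : IsLocallyConstant v := by
    rw [IsLocallyConstant.iff_eventually_eq]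
    intro s
    obtain ⟨r, hr, hball⟩ := Metric.isOpen_iff.1 (B.L s).open_source (p s) (B.mem_source s)
    have hmain : ∀ y ∈ ball (p s) r, v (B.q s y) = v s := by
      intro y hy
      set w := y - p s with hw
      set Ω : Set ℂ := {t | p s + t • w ∈ ball (p s) r} with hΩ
      have hΩo : IsOpen Ω := isOpen_ball.preimage (by fun_prop)
      have hΩc : IsPreconnected Ω := by
        have : Convex ℝ Ω := by
          intro ζ hζ η hη α β hα hβ hαβ
          have h5 : p s + (α • ζ + β • η) • w =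
              α • (p s + ζ • w) + β • (p s + η • w) := by
            have e1 : (α • ζ + β • η) • w = α • (ζ • w) + β • (η • w) := by
              rw [add_smul, smul_assoc, smul_assoc]
            have e2 : p s = α • p s + β • p s := by rw [← add_smul, hαβ, one_smul]
            rw [e1, smul_add, smul_add]
            nth_rewrite 1 [e2]
            abel
          show p s + (α • ζ + β • η) • w ∈ ball (p s) r
          rw [h5]
          exact (convex_ball (p s) r) hζ hη hα hβ hαβ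
        exact this.isPreconnected
      set σ : ℂ → S := fun t => B.q s (p s + t • w) with hσ
      have hσc : ContinuousOn σ Ω :=
        (B.L s).continuousOn.comp (by fun_prop) (fun t ht => hball ht)
      have hσp : ∀ t ∈ Ω, p (σ t) = p s + t • w := fun t ht =>
        B.p_q (hball ht)
      have hfd : ∀ t ∈ Ω, DifferentiableAt ℝ (v ∘ σ) t ∧ fderiv ℝ (v ∘ σ) t = 0 := by
        intro t ht
        obtain ⟨ε, hε, hεb⟩ := Metric.isOpen_iff.1 hΩo t ht
        have h1 := hv σ _ _ _ _ hε (hσc.mono hεb) (fun z hz => hσp z (hεb hz))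
        refine ⟨h1.1.differentiableAt (by norm_num), ?_⟩
        apply lgrad_eq_zero _ (hneg _)
        rw [B.lgrad_lift (w := w) v (hσc.continuousAt (hΩo.mem_nhds ht)) (lift_spec hΩo hσp ht)]
        exact B.Φ_eq_zero hv hneg hmul w _
      have h0 : (0 : ℂ) ∈ Ω := by
        show p s + (0 : ℂ) • w ∈ ball (p s) r
        rw [zero_smul, add_zero]
        exact mem_ball_self hr
      have h1 : (1 : ℂ) ∈ Ω := by
        show p s + (1 : ℂ) • w ∈ ball (p s) r
        rw [one_smul, hw, add_sub_cancel]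
        exact hy
      have h2 : (v ∘ σ) 1 = (v ∘ σ) 0 :=
        hΩo.is_const_of_fderiv_eq_zero hΩc
          (fun t ht => (hfd t ht).1.differentiableWithinAt) (fun t ht => (hfd t ht).2) h1 h0
      simp only [Function.comp_apply, hσ, one_smul, zero_smul, add_zero] at h2
      rw [hw, add_sub_cancel, B.q_self] at h2
      exact h2
    have hcont : ContinuousAt p s := B.isLocalHomeomorph.continuous.continuousAt
    filter_upwards [B.eventually_q_p s, hcont.eventually (isOpen_ball.eventually_mem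
      (mem_ball_self hr))] with t h1 h2
    have := hmain (p t) h2
    rwa [h1] at this
  intro s t
  exact hlc.apply_eq_of_preconnectedSpace s t

end IsLineBase

end Pool.Agent.H26.GWBase
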