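import Pool.Agent.H26.GWBase.Plane

/-!
# A Liouville theorem for vector fields on the punctured plane
-/

open MeasureTheory Set Filter Topology Metric
open scoped ContDiff

namespace Pool.Agent.H26.GWBase

/-- the divergence of a vector field on the plane -/
noncomputable def dv (X : ℂ → ℂ) (z : ℂ) : ℝ :=
  (fderiv ℝ X z 1).re + (fderiv ℝ X z Complex.I).im

lemma integral_fderiv_eq_zero {Y : ℂ → ℂ} (hY : ContDiff ℝ 1 Y) (hc : HasCompactSupport Y)
    (v : ℂ) : Integrable (fun z => fderiv ℝ Y z v) ∧ ∫ z, fderiv ℝ Y z v = 0 := by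
  have h1 : Continuous (fun z => fderiv ℝ Y z v) :=
    (hY.continuous_fderiv (by simp)).clm_apply continuous_const
  have h2 : HasCompactSupport (fun z => fderiv ℝ Y z v) :=
    (hc.fderiv ℝ).comp_left (g := fun L : ℂ →L[ℝ] ℂ => L v) (by simp)
  have h3 := h1.integrable_of_hasCompactSupport h2 (μ := volume)
  refine ⟨h3, ?_⟩
  have h4 := integral_smul_fderiv_eq_neg_fderiv_smul_of_integrable (μ := (volume : Measure ℂ))
    (f := fun _ : ℂ => (1 : ℝ)) (g := Y) (v := v) (by simp) (by simpa using h3)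
    (by simpa using hY.continuous.integrable_of_hasCompactSupport hc)
    (fun x _ => differentiableAt_const _)
    (fun x _ => (hY.differentiable (by simp)).differentiableAt)
  simpa using h4

lemma integral_dv_eq_zero {Y : ℂ → ℂ} (hY : ContDiff ℝ 1 Y) (hc : HasCompactSupport Y) :
    Integrable (dv Y) ∧ ∫ z, dv Y z = 0 := by
  obtain ⟨h1, h2⟩ := integral_fderiv_eq_zero hY hc 1
  obtain ⟨h3, h4⟩ := integral_fderiv_eq_zero hY hc Complex.I
  have h5 : Integrable (fun z => (fderiv ℝ Y z 1).re) := h1.re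
  have h6 : Integrable (fun z => (fderiv ℝ Y z Complex.I).im) := h3.im
  refine ⟨h5.add h6, ?_⟩
  have h7 : ∫ z, (fderiv ℝ Y z 1).re = 0 := by
    have := integral_re (𝕜 := ℂ) h1
    simp only [RCLike.re_to_complex] at this
    rw [this, h2]
    simp
  have h8 : ∫ z, (fderiv ℝ Y z Complex.I).im = 0 := by
    have := integral_im (𝕜 := ℂ) h3
    simp only [RCLike.im_to_complex] at this
    rw [this, h4]
    simp
  unfold dv
  rw [integral_add h5 h6, h7, h8, add_zero]

/-- A vector field `X` on the plane minus a finite set with `|X| ^ 2 ≤ m * div X` vanishes. -/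
theorem plane_liouville (D : Finset ℂ) (X : ℂ → ℂ) {m : ℝ} (hm : 0 < m)
    (hX : ∀ z ∉ D, ContDiffAt ℝ 1 X z) (h : ∀ z ∉ D, ‖X z‖ ^ 2 ≤ m * dv X z) :
    ∀ z ∉ D, X z = 0 := by
  intro z₀ hz₀
  by_contra hne
  -- a small ball on which `X` is bounded below
  obtain ⟨r, hr, hball⟩ : ∃ r > 0, ∀ z ∈ closedBall z₀ r, z ∉ D ∧ ‖X z₀‖ / 2 ≤ ‖X z‖ := by
    have h1 : ∀ᶠ z in 𝓝 z₀, z ∉ D := D.finite_toSet.isClosed.isOpen_compl.eventually_mem hz₀
    have h2 : ∀ᶠ z in 𝓝 z₀, ‖X z₀‖ / 2 < ‖X z‖ := by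
      have h3 : ContinuousAt (fun z => ‖X z‖) z₀ := (hX z₀ hz₀).continuousAt.norm
      exact h3.eventually (lt_mem_nhds (by have := norm_pos_iff.2 hne; linarith))
    obtain ⟨r, hr, hr2⟩ := Metric.eventually_nhds_iff_ball.1 (h1.and h2)
    refine ⟨r / 2, by positivity, fun z hz => ?_⟩
    have := hr2 z (closedBall_subset_ball (by linarith) hz)
    exact ⟨this.1, this.2.le⟩
  set c : ℝ := (‖X z₀‖ / 2) ^ 2 with hc
  have hc0 : 0 < c := by have := norm_pos_iff.2 hne; positivity
  set V : ℝ := volume.real (closedBall z₀ r) with hV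
  have hV0 : 0 < V := by
    rw [hV, measureReal_def, ENNReal.toReal_pos_iff]
    exact ⟨measure_closedBall_pos _ _ hr, measure_closedBall_lt_top⟩
  -- the cutoff
  have hε : 0 < c * V / (8 * m ^ 2) := by positivity
  obtain ⟨χ, c1, c2, c3, c4, c5, c6, c7⟩ := hasCutoffs_finset D (closedBall z₀ r)
    (isCompact_closedBall _ _) (Set.disjoint_left.2 fun z hz => (hball z hz).1) _ hε
  set Y : ℂ → ℂ := fun z => (χ z) ^ 2 • X z with hY
  have hYC : ContDiff ℝ 1 Y := by
    rw [contDiff_iff_contDiffAt]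
    intro z
    by_cases hz : z ∈ tsupport χ
    · have hz' : z ∉ D := fun h' => Set.disjoint_left.1 c3 hz h'
      exact ((c1.of_le (by simp)).contDiffAt.pow 2).smul (hX z hz')
    · rw [notMem_tsupport_iff_eventuallyEq] at hz
      have : Y =ᶠ[𝓝 z] fun _ => 0 := by
        filter_upwards [hz] with w hw
        simp [hY, hw]
      exact contDiffAt_const.congr_of_eventuallyEq this
  have hYc : HasCompactSupport Y := by
    apply c2.mono
    intro z hz hz'
    apply hz
    simp [hY, hz']
  obtain ⟨hint, hzero⟩ := integral_dv_eq_zero hYC hYc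
  -- pointwise inequality
  have key : ∀ z, (closedBall z₀ r).indicator (fun _ => c / (2 * m)) z
      - 2 * m * ‖fderiv ℝ χ z‖ ^ 2 ≤ dv Y z := by
    intro z
    by_cases hz : z ∈ tsupport χ
    · have hz' : z ∉ D := fun h' => Set.disjoint_left.1 c3 hz h'
      have hXd : DifferentiableAt ℝ X z := (hX z hz').differentiableAt (by simp)
      have hχd : DifferentiableAt ℝ χ z := (c1.differentiable (by simp)).differentiableAt
      have hd : dv Y z = (χ z) ^ 2 * dv X z + 2 * χ z * fderiv ℝ χ z (X z) := by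
        have e1 : fderiv ℝ Y z = (χ z) ^ 2 • fderiv ℝ X z +
            (fderiv ℝ (fun z => (χ z) ^ 2) z).smulRight (X z) := by
          rw [hY]
          exact fderiv_fun_smul (hχd.pow 2) hXd
        have e2 : fderiv ℝ (fun z => (χ z) ^ 2) z = (2 * χ z) • fderiv ℝ χ z := by
          rw [fderiv_fun_pow _ hχd]
          simp
        have e3 : X z = (X z).re • (1 : ℂ) + (X z).im • Complex.I := by
          simp [Complex.re_add_im]
        have e4 : fderiv ℝ χ z (X z) = (X z).re * fderiv ℝ χ z 1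
            + (X z).im * fderiv ℝ χ z Complex.I := by
          nth_rewrite 1 [e3]
          rw [map_add, map_smul, map_smul, smul_eq_mul, smul_eq_mul]
        unfold dv
        rw [e1, e2, e4]
        simp only [ContinuousLinearMap.add_apply, ContinuousLinearMap.smul_apply,
          ContinuousLinearMap.smulRight_apply, Complex.add_re, Complex.add_im, Complex.smul_re,
          Complex.smul_im, smul_eq_mul]
        ring
      rw [hd]
      have i1 := h z hz'
      have i2 : |fderiv ℝ χ z (X z)| ≤ ‖fderiv ℝ χ z‖ * ‖X z‖ := by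
        have := (fderiv ℝ χ z).le_opNorm (X z)
        rwa [Real.norm_eq_abs] at this
      have i3 : (closedBall z₀ r).indicator (fun _ => c / (2 * m)) z
          ≤ (χ z) ^ 2 * ‖X z‖ ^ 2 / (2 * m) := by
        by_cases hzb : z ∈ closedBall z₀ r
        · rw [indicator_of_mem hzb, c6 z hzb]
          have := (hball z hzb).2
          have : c ≤ ‖X z‖ ^ 2 := by rw [hc]; gcongr
          rw [one_pow, one_mul]
          gcongr
        · rw [indicator_of_notMem hzb]
          positivity
      have i4 : -(2 * χ z * fderiv ℝ χ z (X z)) ≤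
          (χ z) ^ 2 * ‖X z‖ ^ 2 / (2 * m) + 2 * m * ‖fderiv ℝ χ z‖ ^ 2 := by
        have j1 : -(2 * χ z * fderiv ℝ χ z (X z)) ≤ 2 * χ z * (‖fderiv ℝ χ z‖ * ‖X z‖) := by
          have := neg_abs_le (fderiv ℝ χ z (X z))
          nlinarith [c4 z]
        have j2 : (χ z) ^ 2 * ‖X z‖ ^ 2 / (2 * m) + 2 * m * ‖fderiv ℝ χ z‖ ^ 2
            - 2 * χ z * (‖fderiv ℝ χ z‖ * ‖X z‖) =
            (χ z * ‖X z‖ - 2 * m * ‖fderiv ℝ χ z‖) ^ 2 / (2 * m) := by
          field_simp
          ring
        have j3 : 0 ≤ (χ z * ‖X z‖ - 2 * m * ‖fderiv ℝ χ z‖) ^ 2 / (2 * m) := by positivity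
        linarith
      have i5 : (χ z) ^ 2 * ‖X z‖ ^ 2 / m ≤ (χ z) ^ 2 * dv X z := by
        rw [div_le_iff₀ hm]
        calc (χ z) ^ 2 * ‖X z‖ ^ 2 ≤ (χ z) ^ 2 * (m * dv X z) := by gcongr
          _ = _ := by ring
      have i6 : (χ z) ^ 2 * ‖X z‖ ^ 2 / m = 2 * ((χ z) ^ 2 * ‖X z‖ ^ 2 / (2 * m)) := by
        field_simp
      linarith
    · have hz2 := hz
      rw [notMem_tsupport_iff_eventuallyEq] at hz2
      have e1 : Y =ᶠ[𝓝 z] fun _ => 0 := by
        filter_upwards [hz2] with w hw
        simp [hY, hw]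
      have e2 : dv Y z = 0 := by
        unfold dv
        rw [e1.fderiv_eq]
        simp
      have hzb : z ∉ closedBall z₀ r := by
        intro hzb
        have := c6 z hzb
        rw [hz2.self_of_nhds] at this
        simp at this
      rw [e2, indicator_of_notMem hzb]
      have : 0 ≤ 2 * m * ‖fderiv ℝ χ z‖ ^ 2 := by positivity
      linarith
  have hi1 : Integrable ((closedBall z₀ r).indicator (fun _ => c / (2 * m))) := by
    rw [integrable_indicator_iff measurableSet_closedBall]
    exact integrableOn_const measure_closedBall_lt_top.ne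
  have hi2 : Integrable (fun z => 2 * m * ‖fderiv ℝ χ z‖ ^ 2) :=
    (integrable_energy c1 c2).const_mul _
  have h10 := integral_mono (hi1.sub hi2) hint key
  rw [hzero] at h10
  simp only [Pi.sub_apply] at h10
  rw [integral_sub hi1 hi2, integral_const_mul, integral_indicator measurableSet_closedBall,
    setIntegral_const, smul_eq_mul, ← hV] at h10
  have h11 : ∫ z, ‖fderiv ℝ χ z‖ ^ 2 ≤ c * V / (8 * m ^ 2) := c7
  have h12 : 2 * m * ∫ z, ‖fderiv ℝ χ z‖ ^ 2 ≤ 2 * m * (c * V / (8 * m ^ 2)) := by gcongr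
  have h13 : 2 * m * (c * V / (8 * m ^ 2)) = V * (c / (2 * m)) / 2 := by
    field_simp
    ring
  have h14 : 0 < V * (c / (2 * m)) := by positivity
  linarith

end Pool.Agent.H26.GWBase
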