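import Pool.Agent.H26.GWBase.Liou

/-!
# The logarithmic gradient of a negative subharmonic function
-/

open MeasureTheory Set Filter Topology Metric Laplacian InnerProductSpace
open scoped ContDiff

namespace Pool.Agent.H26.GWBase

/-- the gradient of a function on the plane, as a complex number -/
noncomputable def grad (v : ℂ → ℝ) (z : ℂ) : ℂ :=
  (fderiv ℝ v z 1 : ℂ) + (fderiv ℝ v z Complex.I : ℂ) * Complex.I

lemma grad_re (v : ℂ → ℝ) (z : ℂ) : (grad v z).re = fderiv ℝ v z 1 := by simp [grad]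
lemma grad_im (v : ℂ → ℝ) (z : ℂ) : (grad v z).im = fderiv ℝ v z Complex.I := by simp [grad]

lemma grad_congr {v w : ℂ → ℝ} {z : ℂ} (h : v =ᶠ[𝓝 z] w) : grad v z = grad w z := by
  unfold grad
  rw [h.fderiv_eq]

lemma grad_eventuallyEq {v w : ℂ → ℝ} {z : ℂ} (h : v =ᶠ[𝓝 z] w) : grad v =ᶠ[𝓝 z] grad w := by
  filter_upwards [h.eventuallyEq_nhds] with y hy
  exact grad_congr hy

lemma grad_const_mul {v : ℂ → ℝ} {z : ℂ} (hv : DifferentiableAt ℝ v z) (c : ℝ) :
    grad (fun z => c * v z) z = (c : ℂ) * grad v z := by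
  unfold grad
  rw [fderiv_const_mul hv]
  simp
  ring

lemma grad_comp_sub (u : ℂ → ℝ) (z : ℂ) : grad (fun y => u (y - z)) z = grad u 0 := by
  unfold grad
  rw [fderiv_comp_sub, sub_self]

lemma contDiffAt_grad {v : ℂ → ℝ} {z : ℂ} (hv : ContDiffAt ℝ 2 v z) :
    ContDiffAt ℝ 1 (grad v) z := by
  have h1 : ∀ w : ℂ, ContDiffAt ℝ 1 (fun y => fderiv ℝ v y w) z := fun w =>
    (hv.fderiv_right (m := 1) (by norm_num)).clm_apply contDiffAt_const
  have h2 : ∀ w : ℂ, ContDiffAt ℝ 1 (fun y => ((fderiv ℝ v y w : ℝ) : ℂ)) z := fun w =>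
    Complex.ofRealCLM.contDiff.contDiffAt.comp z (h1 w)
  exact (h2 1).add ((h2 Complex.I).mul contDiffAt_const)

lemma fderiv_grad {v : ℂ → ℝ} {z : ℂ} (hv : ContDiffAt ℝ 2 v z) (w : ℂ) :
    fderiv ℝ (grad v) z w = ((fderiv ℝ (fderiv ℝ v) z w 1 : ℝ) : ℂ) +
      ((fderiv ℝ (fderiv ℝ v) z w Complex.I : ℝ) : ℂ) * Complex.I := by
  have h3 : DifferentiableAt ℝ (fderiv ℝ v) z :=
    (hv.fderiv_right (m := 1) (by norm_num)).differentiableAt (by norm_num)
  have h4 : ∀ u : ℂ, HasFDerivAt (fun y => ((fderiv ℝ v y u : ℝ) : ℂ))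
      (Complex.ofRealCLM.comp ((fderiv ℝ (fderiv ℝ v) z).flip u)) z := by
    intro u
    have h5 := h3.hasFDerivAt.clm_apply (hasFDerivAt_const u z)
    have h6 : HasFDerivAt (fun y => fderiv ℝ v y u) ((fderiv ℝ (fderiv ℝ v) z).flip u) z := by
      refine h5.congr_fderiv ?_
      ext w
      simp
    exact Complex.ofRealCLM.hasFDerivAt.comp z h6
  have h7 := (h4 1).add ((h4 Complex.I).mul_const Complex.I)
  have h8 : grad v = (fun y => ((fderiv ℝ v y 1 : ℝ) : ℂ)) +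
      fun y => ((fderiv ℝ v y Complex.I : ℝ) : ℂ) * Complex.I := rfl
  rw [h8, h7.fderiv]
  simp
  ring

lemma laplacian_eq_dv_grad {v : ℂ → ℝ} {z : ℂ} (hv : ContDiffAt ℝ 2 v z) :
    Δ v z = dv (grad v) z := by
  unfold dv
  rw [fderiv_grad hv, fderiv_grad hv, laplacian_eq_iteratedFDeriv_complexPlane]
  simp only [iteratedFDeriv_two_apply]
  simp

/-- the logarithmic gradient: the gradient of `-log (-v)` -/
noncomputable def lgrad (v : ℂ → ℝ) (z : ℂ) : ℂ := (-(v z))⁻¹ • grad v z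

lemma contDiffAt_lgrad {v : ℂ → ℝ} {z : ℂ} (hv : ContDiffAt ℝ 2 v z) (h0 : v z < 0) :
    ContDiffAt ℝ 1 (lgrad v) z := by
  have h1 : ContDiffAt ℝ 1 (fun y => (-(v y))⁻¹) z :=
    ((hv.of_le (by norm_num)).neg).inv (by linarith)
  exact h1.smul (contDiffAt_grad hv)

lemma lgrad_congr {v w : ℂ → ℝ} {z : ℂ} (h : v =ᶠ[𝓝 z] w) : lgrad v z = lgrad w z := by
  unfold lgrad
  rw [grad_congr h, h.eq_of_nhds]

lemma lgrad_const_mul {v : ℂ → ℝ} {z : ℂ} (hv : DifferentiableAt ℝ v z) {c : ℝ} (hc : c ≠ 0) :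
    lgrad (fun z => c * v z) z = lgrad v z := by
  unfold lgrad
  rw [grad_const_mul hv, Complex.real_smul, Complex.real_smul]
  push_cast
  have hc' : (c : ℂ) ≠ 0 := by exact_mod_cast hc
  by_cases h : (v z : ℂ) = 0
  · rw [h]
    simp
  · field_simp

lemma dv_lgrad {v : ℂ → ℝ} {z : ℂ} (hv : ContDiffAt ℝ 2 v z) (h0 : v z < 0) :
    dv (lgrad v) z = Δ v z / (-(v z)) + ‖lgrad v z‖ ^ 2 := by
  have hvd : DifferentiableAt ℝ v z := hv.differentiableAt (by norm_num)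
  have hgd : DifferentiableAt ℝ (grad v) z :=
    (contDiffAt_grad hv).differentiableAt (by norm_num)
  have hne : v z ≠ 0 := h0.ne
  have h1 : HasFDerivAt (fun y => (-(v y))⁻¹) (((v z) ^ 2)⁻¹ • fderiv ℝ v z) z := by
    have h2 : HasFDerivAt (fun y => -(v y)) (-fderiv ℝ v z) z := hvd.hasFDerivAt.neg
    have h3 := (hasDerivAt_inv (neg_ne_zero.2 hne)).comp_hasFDerivAt z h2
    refine h3.congr_fderiv ?_
    ext w
    simp
  have h4 : fderiv ℝ (lgrad v) z = (-(v z))⁻¹ • fderiv ℝ (grad v) z +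
      (((v z) ^ 2)⁻¹ • fderiv ℝ v z).smulRight (grad v z) := by
    have := (h1.smul hgd.hasFDerivAt).fderiv
    exact this
  rw [laplacian_eq_dv_grad hv]
  have h5 : ‖lgrad v z‖ ^ 2 = ((v z) ^ 2)⁻¹ * ((grad v z).re ^ 2 + (grad v z).im ^ 2) := by
    unfold lgrad
    rw [norm_smul, mul_pow, Complex.sq_norm, Complex.normSq_apply, Real.norm_eq_abs, sq_abs,
      inv_pow, neg_sq]
    ring
  rw [h5]
  unfold dv
  rw [h4]
  simp only [ContinuousLinearMap.add_apply, ContinuousLinearMap.smul_apply,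
    ContinuousLinearMap.smulRight_apply, Complex.add_re, Complex.add_im, Complex.smul_re,
    Complex.smul_im, smul_eq_mul, grad_re, grad_im]
  field_simp
  ring

/-- scaling of the Laplacian -/
lemma laplacian_comp_affine {u : ℂ → ℝ} {z₀ : ℂ} (hu : ContDiffAt ℝ 2 u z₀) (ε : ℝ) :
    Δ (fun t : ℂ => u (z₀ + ε • t)) 0 = ε ^ 2 * Δ u z₀ := by
  have hL : HasFDerivAt (fun t : ℂ => z₀ + ε • t) (ε • ContinuousLinearMap.id ℝ ℂ) 0 := by
    exact ((hasFDerivAt_id (0 : ℂ)).const_smul ε).const_add z₀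
  have e0 : z₀ + ε • (0 : ℂ) = z₀ := by simp
  have hcomp : ContDiffAt ℝ 2 (fun t : ℂ => u (z₀ + ε • t)) 0 := by
    apply ContDiffAt.comp (g := u) (f := fun t : ℂ => z₀ + ε • t) 0
    · rw [e0]; exact hu
    · exact (contDiff_const.add (contDiff_id.const_smul ε)).contDiffAt
  have hgrad : grad (fun t : ℂ => u (z₀ + ε • t)) =ᶠ[𝓝 0]
      fun t => (ε : ℂ) * grad u (z₀ + ε • t) := by
    have h1 : ∀ᶠ w in 𝓝 z₀, DifferentiableAt ℝ u w := by
      filter_upwards [hu.eventually (by simp)] with w hw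
      exact hw.differentiableAt (by norm_num)
    have h2 : Tendsto (fun t : ℂ => z₀ + ε • t) (𝓝 0) (𝓝 z₀) := by
      have := hL.continuousAt.tendsto
      rwa [e0] at this
    filter_upwards [h2.eventually h1] with t ht
    have hLt : HasFDerivAt (fun t : ℂ => z₀ + ε • t) (ε • ContinuousLinearMap.id ℝ ℂ) t :=
      ((hasFDerivAt_id t).const_smul ε).const_add z₀
    have h3 := (ht.hasFDerivAt.comp t hLt).fderiv
    unfold grad
    have h4 : (u ∘ fun t : ℂ => z₀ + ε • t) = fun t : ℂ => u (z₀ + ε • t) := rfl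
    rw [h4] at h3
    rw [h3]
    simp
    ring
  rw [laplacian_eq_dv_grad hcomp, laplacian_eq_dv_grad hu]
  unfold dv
  rw [hgrad.fderiv_eq]
  have h5 : HasFDerivAt (grad u) (fderiv ℝ (grad u) z₀) (z₀ + ε • (0 : ℂ)) := by
    rw [e0]
    exact ((contDiffAt_grad hu).differentiableAt (by norm_num)).hasFDerivAt
  have h6 := ((h5.comp (0 : ℂ) hL).const_mul (ε : ℂ)).fderiv
  have h7 : (fun t : ℂ => (ε : ℂ) * grad u (z₀ + ε • t)) =
      fun y => (ε : ℂ) * (grad u ∘ fun t : ℂ => z₀ + ε • t) y := rfl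
  rw [h7, h6]
  simp
  ring

end Pool.Agent.H26.GWBase
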