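import Mathlib

/-!
# Logarithmic cutoff functions and a Liouville theorem in the punctured plane
-/

open MeasureTheory Set Filter Topology Metric
open scoped ContDiff

namespace Pool.Agent.H26.GWBase

/-! ## Energy -/

/-- the Dirichlet energy -/
noncomputable def energy (f : ℂ → ℝ) : ℝ := ∫ z, ‖fderiv ℝ f z‖ ^ 2

/-- a fixed bump function: one on the unit ball, zero outside the ball of radius two -/
noncomputable def bump : ContDiffBump (0 : ℂ) := ⟨1, 2, one_pos, one_lt_two⟩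

noncomputable def bumpC : ℝ := energy bump

lemma bump_contDiff : ContDiff ℝ ∞ (bump : ℂ → ℝ) := bump.contDiff

lemma bump_one {z : ℂ} (h : ‖z‖ ≤ 1) : bump z = 1 :=
  bump.one_of_mem_closedBall (by simpa [bump] using h)

lemma bump_zero {z : ℂ} (h : 2 ≤ ‖z‖) : bump z = 0 :=
  bump.zero_of_le_dist (by simpa [bump] using h)

lemma bump_fderiv_of_lt {z : ℂ} (h : ‖z‖ < 1) : fderiv ℝ (bump : ℂ → ℝ) z = 0 := by
  have : (bump : ℂ → ℝ) =ᶠ[𝓝 z] fun _ => 1 := by
    filter_upwards [isOpen_ball.mem_nhds (show z ∈ ball (0 : ℂ) 1 by simpa using h)] with w hw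
    exact bump_one (by simpa using (mem_ball_zero_iff.1 hw).le)
  rw [this.fderiv_eq]
  simp

lemma bump_fderiv_of_gt {z : ℂ} (h : 2 < ‖z‖) : fderiv ℝ (bump : ℂ → ℝ) z = 0 := by
  have : (bump : ℂ → ℝ) =ᶠ[𝓝 z] fun _ => 0 := by
    have ho : IsOpen {w : ℂ | 2 < ‖w‖} := isOpen_lt continuous_const continuous_norm
    filter_upwards [ho.mem_nhds h] with w hw
    exact bump_zero (le_of_lt hw)
  rw [this.fderiv_eq]
  simp

/-- the scaled bump `z ↦ bump (a (z - p))` -/
noncomputable def sb (p : ℂ) (a : ℝ) (z : ℂ) : ℝ := bump (a • (z - p))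

lemma sb_contDiff (p : ℂ) (a : ℝ) : ContDiff ℝ ∞ (sb p a) := by
  unfold sb
  exact bump_contDiff.comp (by fun_prop)

lemma sb_fderiv (p : ℂ) (a : ℝ) (z : ℂ) :
    fderiv ℝ (sb p a) z = a • fderiv ℝ (bump : ℂ → ℝ) (a • (z - p)) := by
  have h1 : HasFDerivAt (fun z : ℂ => a • (z - p)) (a • ContinuousLinearMap.id ℝ ℂ) z := by
    exact ((hasFDerivAt_id z).sub_const p).const_smul a
  have h2 : HasFDerivAt (bump : ℂ → ℝ) (fderiv ℝ (bump : ℂ → ℝ) (a • (z - p))) (a • (z - p)) :=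
    (bump_contDiff.differentiable (by simp)).differentiableAt.hasFDerivAt
  have h3 := (h2.comp z h1).fderiv
  have h4 : (bump : ℂ → ℝ) ∘ (fun z : ℂ => a • (z - p)) = sb p a := rfl
  rw [h4] at h3
  rw [h3]
  ext v
  simp

lemma sb_support {p : ℂ} {a : ℝ} {z : ℂ} (h : fderiv ℝ (sb p a) z ≠ 0) :
    1 ≤ |a| * ‖z - p‖ ∧ |a| * ‖z - p‖ ≤ 2 := by
  rw [sb_fderiv] at h
  have hn : ‖a • (z - p)‖ = |a| * ‖z - p‖ := by rw [norm_smul, Real.norm_eq_abs]
  constructor
  · by_contra hc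
    apply h
    rw [bump_fderiv_of_lt (by rw [hn]; linarith), smul_zero]
  · by_contra hc
    apply h
    rw [bump_fderiv_of_gt (by rw [hn]; linarith), smul_zero]

/-- scale invariance of the energy in dimension two -/
lemma energy_sb (p : ℂ) {a : ℝ} (ha : a ≠ 0) : energy (sb p a) = bumpC := by
  unfold bumpC energy
  have h1 : ∀ z, ‖fderiv ℝ (sb p a) z‖ ^ 2 =
      a ^ 2 * (fun w => ‖fderiv ℝ (bump : ℂ → ℝ) w‖ ^ 2) (a • (z - p)) := by
    intro z
    rw [sb_fderiv, norm_smul, mul_pow, Real.norm_eq_abs, sq_abs]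
  simp_rw [h1]
  rw [integral_const_mul]
  have h2 : ∫ z : ℂ, (fun w => ‖fderiv ℝ (bump : ℂ → ℝ) w‖ ^ 2) (a • (z - p)) =
      ∫ z : ℂ, (fun w => ‖fderiv ℝ (bump : ℂ → ℝ) w‖ ^ 2) (a • z) :=
    integral_sub_right_eq_self (fun z => (fun w => ‖fderiv ℝ (bump : ℂ → ℝ) w‖ ^ 2) (a • z)) p
  rw [h2, Measure.integral_comp_smul volume (fun w => ‖fderiv ℝ (bump : ℂ → ℝ) w‖ ^ 2) a]
  simp only [Complex.finrank_real_complex, smul_eq_mul]
  rw [abs_of_nonneg (by positivity)]
  field_simp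

lemma integrable_energy {f : ℂ → ℝ} (hf : ContDiff ℝ ∞ f) (hc : HasCompactSupport f) :
    Integrable (fun z => ‖fderiv ℝ f z‖ ^ 2) := by
  have h1 : Continuous (fun z => ‖fderiv ℝ f z‖ ^ 2) :=
    ((hf.continuous_fderiv (by simp)).norm).pow 2
  apply h1.integrable_of_hasCompactSupport
  have h2 : HasCompactSupport (fderiv ℝ f) := hc.fderiv ℝ
  exact h2.comp_left (g := fun L : ℂ →L[ℝ] ℝ => ‖L‖ ^ 2) (by simp)

lemma sb_compact (p : ℂ) {a : ℝ} (ha : a ≠ 0) : HasCompactSupport (sb p a) := by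
  apply HasCompactSupport.of_support_subset_isCompact (isCompact_closedBall p (2 / |a|))
  intro z hz
  rw [mem_closedBall, dist_eq_norm]
  by_contra hc
  push Not at hc
  apply hz
  unfold sb
  apply bump_zero
  rw [norm_smul, Real.norm_eq_abs]
  have : 0 < |a| := abs_pos.2 ha
  rw [div_lt_iff₀ this] at hc
  linarith

/-! ## Averages of scaled bumps -/

/-- average of the bumps at the scales `a / 2 ^ (2 k)`, `k < N` -/
noncomputable def av (p : ℂ) (a : ℝ) (b : ℝ) (N : ℕ) (z : ℂ) : ℝ :=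
  (N : ℝ)⁻¹ * ∑ k ∈ Finset.range N, sb p (a * b ^ k) z

lemma av_contDiff (p : ℂ) (a b : ℝ) (N : ℕ) : ContDiff ℝ ∞ (av p a b N) := by
  unfold av
  exact contDiff_const.mul (ContDiff.sum fun k _ => sb_contDiff _ _)

lemma av_fderiv (p : ℂ) (a b : ℝ) (N : ℕ) (z : ℂ) : fderiv ℝ (av p a b N) z =
    (N : ℝ)⁻¹ • ∑ k ∈ Finset.range N, fderiv ℝ (sb p (a * b ^ k)) z := by
  have h1 : ∀ k ∈ Finset.range N, DifferentiableAt ℝ (sb p (a * b ^ k)) z := fun k _ =>
    ((sb_contDiff p _).differentiable (by simp)).differentiableAt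
  have h2 : av p a b N = fun z => (N : ℝ)⁻¹ * (∑ k ∈ Finset.range N, sb p (a * b ^ k) z) := rfl
  rw [h2, fderiv_const_mul (DifferentiableAt.fun_sum h1), fderiv_fun_sum h1]

lemma norm_sum_sq_of_disjoint {ι V : Type*} [NormedAddCommGroup V] (s : Finset ι)
    (v : ι → V) (h : ∀ i ∈ s, ∀ j ∈ s, i ≠ j → v i = 0 ∨ v j = 0) :
    ‖∑ i ∈ s, v i‖ ^ 2 = ∑ i ∈ s, ‖v i‖ ^ 2 := by
  by_cases h0 : ∀ i ∈ s, v i = 0
  · rw [Finset.sum_eq_zero h0, Finset.sum_eq_zero (fun i hi => by rw [h0 i hi]; simp)]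
    simp
  · push Not at h0
    obtain ⟨i, hi, hvi⟩ := h0
    have h1 : ∀ j ∈ s, j ≠ i → v j = 0 := fun j hj hji => by
      rcases h i hi j hj (Ne.symm hji) with h2 | h2
      · exact absurd h2 hvi
      · exact h2
    rw [Finset.sum_eq_single_of_mem i hi h1,
      Finset.sum_eq_single_of_mem i hi (fun j hj hji => by rw [h1 j hj hji]; simp)]

/-- the scales `b = 4` and `b = 1 / 4` are used -/
def GoodScale (b : ℝ) : Prop := 0 < b ∧ (4 ≤ b ∨ b ≤ 1 / 4)

lemma scale_disjoint {b : ℝ} (hb : GoodScale b) {a r : ℝ} (ha : 0 < a) (hr : 0 ≤ r) {k l : ℕ}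
    (hkl : k < l) (h1 : 1 ≤ |a * b ^ k| * r) (h2 : |a * b ^ k| * r ≤ 2)
    (h3 : 1 ≤ |a * b ^ l| * r) (h4 : |a * b ^ l| * r ≤ 2) : False := by
  obtain ⟨hb0, hb⟩ := hb
  rw [abs_of_pos (by positivity)] at h1 h2 h3 h4
  obtain ⟨m, rfl⟩ : ∃ m, l = k + (m + 1) := ⟨l - k - 1, by omega⟩
  have e : a * b ^ (k + (m + 1)) * r = (a * b ^ k * r) * b ^ (m + 1) := by ring
  rw [e] at h3 h4
  rcases hb with hb | hb
  · have h5 : (4 : ℝ) ≤ b ^ (m + 1) := by
      calc (4 : ℝ) = 4 ^ 1 := by norm_num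
        _ ≤ b ^ 1 := by gcongr
        _ ≤ b ^ (m + 1) := pow_le_pow_right₀ (by linarith) (by omega)
    nlinarith
  · have h5 : b ^ (m + 1) ≤ 1 / 4 := by
      calc b ^ (m + 1) ≤ b ^ 1 := pow_le_pow_of_le_one hb0.le (by linarith) (by omega)
        _ ≤ 1 / 4 := by simpa using hb
    nlinarith [pow_pos hb0 (m + 1)]

lemma energy_av (p : ℂ) {a b : ℝ} (ha : 0 < a) (hb : GoodScale b) {N : ℕ} (hN : 0 < N) :
    energy (av p a b N) = bumpC / N := by
  have hb0 := hb.1
  have hne : ∀ k : ℕ, a * b ^ k ≠ 0 := fun k => by positivity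
  have h1 : ∀ z, ‖fderiv ℝ (av p a b N) z‖ ^ 2 =
      ((N : ℝ)⁻¹) ^ 2 * ∑ k ∈ Finset.range N, ‖fderiv ℝ (sb p (a * b ^ k)) z‖ ^ 2 := by
    intro z
    rw [av_fderiv, norm_smul, mul_pow, norm_sum_sq_of_disjoint]
    · rw [Real.norm_eq_abs, sq_abs]
    · intro i _ j _ hij
      by_contra hc
      push Not at hc
      have h2 := sb_support hc.1
      have h3 := sb_support hc.2
      rcases Nat.lt_or_gt_of_ne hij with h | h
      · exact scale_disjoint hb ha (norm_nonneg _) h h2.1 h2.2 h3.1 h3.2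
      · exact scale_disjoint hb ha (norm_nonneg _) h h3.1 h3.2 h2.1 h2.2
  unfold energy
  simp_rw [h1]
  rw [integral_const_mul, integral_finsetSum]
  · have h2 : ∀ k ∈ Finset.range N, ∫ z, ‖fderiv ℝ (sb p (a * b ^ k)) z‖ ^ 2 = bumpC :=
      fun k _ => energy_sb p (hne k)
    rw [Finset.sum_congr rfl h2]
    simp only [Finset.sum_const, Finset.card_range, nsmul_eq_mul]
    have : (N : ℝ) ≠ 0 := by positivity
    field_simp
  · intro k _
    exact integrable_energy (sb_contDiff _ _) (sb_compact p (hne k))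

lemma sb_nonneg (p : ℂ) (a : ℝ) (z : ℂ) : 0 ≤ sb p a z := bump.nonneg
lemma sb_le_one (p : ℂ) (a : ℝ) (z : ℂ) : sb p a z ≤ 1 := bump.le_one

lemma av_nonneg (p : ℂ) (a b : ℝ) (N : ℕ) (z : ℂ) : 0 ≤ av p a b N z := by
  unfold av
  exact mul_nonneg (by positivity) (Finset.sum_nonneg fun k _ => sb_nonneg _ _ _)

lemma av_le_one (p : ℂ) (a b : ℝ) (N : ℕ) (z : ℂ) : av p a b N z ≤ 1 := by
  unfold av
  rcases Nat.eq_zero_or_pos N with rfl | hN
  · simp
  · have h1 : ∑ k ∈ Finset.range N, sb p (a * b ^ k) z ≤ N := by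
      calc ∑ k ∈ Finset.range N, sb p (a * b ^ k) z ≤ ∑ k ∈ Finset.range N, (1 : ℝ) :=
            Finset.sum_le_sum fun k _ => sb_le_one _ _ _
        _ = N := by simp
    have h2 : (0 : ℝ) < N := by positivity
    rw [inv_mul_le_iff₀ h2]
    simpa using h1

lemma av_eq_one {p : ℂ} {a b : ℝ} {N : ℕ} (hN : 0 < N) {z : ℂ}
    (h : ∀ k < N, |a * b ^ k| * ‖z - p‖ ≤ 1) : av p a b N z = 1 := by
  unfold av
  have h1 : ∀ k ∈ Finset.range N, sb p (a * b ^ k) z = 1 := by
    intro k hk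
    unfold sb
    apply bump_one
    rw [norm_smul, Real.norm_eq_abs]
    exact h k (Finset.mem_range.1 hk)
  rw [Finset.sum_congr rfl h1]
  have h2 : (N : ℝ) ≠ 0 := by positivity
  simp [h2]

lemma av_eq_zero {p : ℂ} {a b : ℝ} {N : ℕ} {z : ℂ}
    (h : ∀ k < N, 2 ≤ |a * b ^ k| * ‖z - p‖) : av p a b N z = 0 := by
  unfold av
  have h1 : ∀ k ∈ Finset.range N, sb p (a * b ^ k) z = 0 := by
    intro k hk
    unfold sb
    apply bump_zero
    rw [norm_smul, Real.norm_eq_abs]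
    exact h k (Finset.mem_range.1 hk)
  rw [Finset.sum_congr rfl h1]
  simp

/-! ## Cutoff functions in the punctured plane -/

/-- cutoff functions of small energy exist -/
def HasCutoffs (D : Set ℂ) : Prop :=
  ∀ K : Set ℂ, IsCompact K → Disjoint K D → ∀ ε > 0, ∃ χ : ℂ → ℝ, ContDiff ℝ ∞ χ ∧
    HasCompactSupport χ ∧ Disjoint (tsupport χ) D ∧ (∀ z, 0 ≤ χ z) ∧ (∀ z, χ z ≤ 1) ∧
    (∀ z ∈ K, χ z = 1) ∧ energy χ ≤ ε

lemma exists_small {ε : ℝ} (hε : 0 < ε) : ∃ N : ℕ, 0 < N ∧ bumpC / N ≤ ε := by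
  obtain ⟨N, hN⟩ := exists_nat_gt (bumpC / ε)
  refine ⟨N + 1, by omega, ?_⟩
  have h1 : (0 : ℝ) < ((N + 1 : ℕ) : ℝ) := by positivity
  rw [div_le_iff₀ h1]
  rw [div_lt_iff₀ hε] at hN
  push_cast
  nlinarith

lemma hasCutoffs_empty : HasCutoffs ∅ := by
  intro K hK _ ε hε
  obtain ⟨N, hN, hNε⟩ := exists_small hε
  obtain ⟨R, hR⟩ := hK.isBounded.exists_norm_le
  have hR' : 0 < max R 1 := by positivity
  set a : ℝ := (max R 1)⁻¹ with ha
  have ha0 : 0 < a := by positivity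
  have hb : GoodScale (1 / 4) := ⟨by norm_num, Or.inr le_rfl⟩
  have hpow : ∀ k : ℕ, (0 : ℝ) < (1 / 4) ^ k ∧ ((1 : ℝ) / 4) ^ k ≤ 1 := fun k =>
    ⟨by positivity, pow_le_one₀ (by norm_num) (by norm_num)⟩
  refine ⟨av 0 a (1 / 4) N, av_contDiff _ _ _ _, ?_, by simp, av_nonneg _ _ _ _,
    av_le_one _ _ _ _, ?_, ?_⟩
  · apply HasCompactSupport.of_support_subset_isCompact
      (isCompact_closedBall (0 : ℂ) (2 / (a * (1 / 4) ^ N)))
    intro z hz
    rw [mem_closedBall_zero_iff]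
    by_contra hc
    push Not at hc
    apply hz
    apply av_eq_zero
    intro k hk
    have h1 : (0 : ℝ) < a * (1 / 4) ^ k := by positivity
    have h2 : (0 : ℝ) < a * (1 / 4) ^ N := by positivity
    rw [abs_of_pos h1, sub_zero]
    rw [div_lt_iff₀ h2] at hc
    have h3 : ((1 : ℝ) / 4) ^ N ≤ (1 / 4) ^ k :=
      pow_le_pow_of_le_one (by norm_num) (by norm_num) hk.le
    have h4 : a * (1 / 4) ^ N ≤ a * (1 / 4) ^ k := by gcongr
    nlinarith [norm_nonneg z]
  · intro z hz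
    apply av_eq_one hN
    intro k _
    rw [abs_of_pos (by positivity), sub_zero]
    have h1 : ‖z‖ ≤ max R 1 := (hR z hz).trans (le_max_left _ _)
    have h2 : a * max R 1 = 1 := inv_mul_cancel₀ hR'.ne'
    have h3 := hpow k
    calc a * (1 / 4) ^ k * ‖z‖ ≤ a * 1 * max R 1 := by
          gcongr
          exact h3.2
      _ = 1 := by rw [mul_one, h2]
  · rw [energy_av 0 ha0 hb hN]
    exact hNε

lemma energy_mul_le {f g : ℂ → ℝ} (hf : ContDiff ℝ ∞ f) (hg : ContDiff ℝ ∞ g)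
    (hf0 : ∀ z, 0 ≤ f z) (hf1 : ∀ z, f z ≤ 1) (hg0 : ∀ z, 0 ≤ g z) (hg1 : ∀ z, g z ≤ 1)
    (hfc : HasCompactSupport f) (hgi : Integrable fun z => ‖fderiv ℝ g z‖ ^ 2) :
    energy (fun z => f z * g z) ≤ 2 * energy f + 2 * energy g := by
  unfold energy
  have hfi := integrable_energy hf hfc
  rw [← integral_const_mul, ← integral_const_mul,
    ← integral_add (hfi.const_mul 2) (hgi.const_mul 2)]
  apply integral_mono_of_nonneg (Eventually.of_forall fun z => by positivity)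
    ((hfi.const_mul 2).add (hgi.const_mul 2))
  apply Eventually.of_forall
  intro z
  have hdf : DifferentiableAt ℝ f z := (hf.differentiable (by simp)).differentiableAt
  have hdg : DifferentiableAt ℝ g z := (hg.differentiable (by simp)).differentiableAt
  simp only
  rw [fderiv_fun_mul hdf hdg]
  have h1 : ‖f z • fderiv ℝ g z + g z • fderiv ℝ f z‖ ≤ ‖fderiv ℝ g z‖ + ‖fderiv ℝ f z‖ := by
    refine (norm_add_le _ _).trans ?_
    rw [norm_smul, norm_smul, Real.norm_eq_abs, Real.norm_eq_abs, abs_of_nonneg (hf0 z),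
      abs_of_nonneg (hg0 z)]
    have := mul_le_mul_of_nonneg_right (hf1 z) (norm_nonneg (fderiv ℝ g z))
    have := mul_le_mul_of_nonneg_right (hg1 z) (norm_nonneg (fderiv ℝ f z))
    linarith
  have h2 : ‖f z • fderiv ℝ g z + g z • fderiv ℝ f z‖ ^ 2 ≤
      (‖fderiv ℝ g z‖ + ‖fderiv ℝ f z‖) ^ 2 := by gcongr
  refine h2.trans ?_
  simp only [Pi.add_apply]
  nlinarith [sq_nonneg (‖fderiv ℝ g z‖ - ‖fderiv ℝ f z‖)]

lemma HasCutoffs.insert {D : Set ℂ} (hD : HasCutoffs D) (p : ℂ) : HasCutoffs (insert p D) := by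
  intro K hK hKD ε hε
  have hKD' : Disjoint K D := hKD.mono_right (subset_insert _ _)
  have hpK : p ∉ K := fun h => (Set.disjoint_left.1 hKD h) (mem_insert _ _)
  obtain ⟨χ, h1, h2, h3, h4, h5, h6, h7⟩ := hD K hK hKD' (ε / 4) (by positivity)
  -- distance of `p` to `K`
  obtain ⟨r, hr, hrK⟩ : ∃ r > 0, ∀ z ∈ K, r ≤ ‖z - p‖ := by
    obtain ⟨r, hr, hr'⟩ := Metric.isOpen_iff.1 hK.isClosed.isOpen_compl p hpK
    refine ⟨r, hr, fun z hz => ?_⟩
    by_contra hc
    push Not at hc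
    exact hr' (show z ∈ ball p r by rwa [mem_ball, dist_eq_norm]) hz
  obtain ⟨N, hN, hNε⟩ := exists_small (show 0 < ε / 4 by positivity)
  set a : ℝ := 2 / r with ha
  have ha0 : 0 < a := by positivity
  have hb : GoodScale 4 := ⟨by norm_num, Or.inl le_rfl⟩
  set g : ℂ → ℝ := fun z => 1 - av p a 4 N z with hg
  have hgC : ContDiff ℝ ∞ g := contDiff_const.sub (av_contDiff _ _ _ _)
  have hgd : ∀ z, fderiv ℝ g z = -fderiv ℝ (av p a 4 N) z := by
    intro z
    rw [hg, fderiv_const_sub]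
  have hge : energy g = bumpC / N := by
    rw [← energy_av p ha0 hb hN]
    unfold energy
    simp_rw [hgd, norm_neg]
  have hgi : Integrable fun z => ‖fderiv ℝ g z‖ ^ 2 := by
    simp_rw [hgd, norm_neg]
    apply integrable_energy (av_contDiff _ _ _ _)
    apply HasCompactSupport.of_support_subset_isCompact (isCompact_closedBall p (2 / a))
    intro z hz
    rw [mem_closedBall, dist_eq_norm]
    by_contra hc
    push Not at hc
    apply hz
    apply av_eq_zero
    intro k _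
    rw [abs_of_pos (by positivity)]
    rw [div_lt_iff₀ ha0] at hc
    have : (1 : ℝ) ≤ 4 ^ k := one_le_pow₀ (by norm_num)
    nlinarith [mul_nonneg ha0.le (norm_nonneg (z - p))]
  have hg0 : ∀ z, 0 ≤ g z := fun z => by have := av_le_one p a 4 N z; simp only [hg]; linarith
  have hg1 : ∀ z, g z ≤ 1 := fun z => by have := av_nonneg p a 4 N z; simp only [hg]; linarith
  have hgK : ∀ z ∈ K, g z = 1 := by
    intro z hz
    have : av p a 4 N z = 0 := by
      apply av_eq_zero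
      intro k _
      rw [abs_of_pos (by positivity)]
      have h8 : (1 : ℝ) ≤ 4 ^ k := one_le_pow₀ (by norm_num)
      have h9 := hrK z hz
      have h10 : a * r = 2 := by rw [ha]; field_simp
      calc (2 : ℝ) = a * 1 * r := by rw [mul_one, h10]
        _ ≤ a * 4 ^ k * ‖z - p‖ := by gcongr
    simp only [hg, this, sub_zero]
  refine ⟨fun z => χ z * g z, h1.mul hgC, h2.mul_right, ?_, fun z => mul_nonneg (h4 z) (hg0 z),
    fun z => mul_le_one₀ (h5 z) (hg0 z) (hg1 z), fun z hz => by show χ z * g z = 1; rw [h6 z hz, hgK z hz, one_mul],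
    ?_⟩
  · rw [Set.disjoint_left]
    intro z hz hzD
    rcases mem_insert_iff.1 hzD with rfl | hzD
    · -- near `z = p` the function `g` vanishes
      revert hz
      rw [imp_false, notMem_tsupport_iff_eventuallyEq]
      have hr2 : (0 : ℝ) < 1 / (a * 4 ^ N) := by positivity
      filter_upwards [ball_mem_nhds z hr2] with w hw
      rw [mem_ball, dist_eq_norm, lt_div_iff₀ (by positivity)] at hw
      have : av z a 4 N w = 1 := by
        apply av_eq_one hN
        intro k hk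
        rw [abs_of_pos (by positivity)]
        have h8 : (4 : ℝ) ^ k ≤ 4 ^ N := pow_le_pow_right₀ (by norm_num) hk.le
        have h9 : a * 4 ^ k ≤ a * 4 ^ N := by gcongr
        nlinarith [norm_nonneg (w - z)]
      simp [hg, this]
    · have : z ∈ tsupport χ := by
        apply closure_mono _ hz
        intro w hw hw'
        apply hw
        simp only
        rw [hw', zero_mul]
      exact Set.disjoint_left.1 h3 this hzD
  · calc energy (fun z => χ z * g z) ≤ 2 * energy χ + 2 * energy g :=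
          energy_mul_le h1 hgC h4 h5 hg0 hg1 h2 hgi
      _ ≤ 2 * (ε / 4) + 2 * (ε / 4) := by
          rw [hge]
          gcongr
      _ = ε := by ring

lemma hasCutoffs_finset (D : Finset ℂ) : HasCutoffs (D : Set ℂ) := by
  classical
  induction D using Finset.induction_on with
  | empty => simpa using hasCutoffs_empty
  | insert p D _ ih =>
    rw [Finset.coe_insert]
    exact ih.insert p

end Pool.Agent.H26.GWBase
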